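import Mathlib

/-!
# The tangential part of the calibration
-/

set_option autoImplicit false

open MeasureTheory Set Filter Topology Metric
open scoped ENNReal ComplexConjugate Real

namespace Pool.Agent.Y210.MS

lemma per_lower {f : ℝ → ℝ} (hf : Continuous f) (hp : Function.Periodic f (2 * π))
    (h0 : ∀ x, 0 < f x) : ∃ c, 0 < c ∧ ∀ x, c ≤ f x := by
  obtain ⟨x0, -, hx0⟩ := (isCompact_Icc (a := (0:ℝ)) (b := 2 * π)).exists_isMinOn
    (nonempty_Icc.2 (by positivity)) hf.continuousOn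
  refine ⟨f x0, h0 x0, fun x => ?_⟩
  obtain ⟨y, hy, hxy⟩ := hp.exists_mem_Ico₀ (by positivity) x
  rw [hxy]
  exact hx0 (Ico_subset_Icc_self hy)

lemma per_upper {f : ℝ → ℝ} (hf : Continuous f) (hp : Function.Periodic f (2 * π)) :
    ∃ C, 0 ≤ C ∧ ∀ x, |f x| ≤ C := by
  obtain ⟨C, hC⟩ := (isCompact_Icc (a := (0:ℝ)) (b := 2 * π)).exists_bound_of_continuousOn
    hf.continuousOn
  refine ⟨C, ?_, fun x => ?_⟩
  · exact (norm_nonneg _).trans (hC 0 ⟨le_rfl, by positivity⟩)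
  obtain ⟨y, hy, hxy⟩ := hp.exists_mem_Ico₀ (by positivity) x
  rw [hxy]
  exact hC y (Ico_subset_Icc_self hy)

lemma per_deriv_real {f : ℝ → ℝ} {c : ℝ} (h : Function.Periodic f c) :
    Function.Periodic (deriv f) c := by
  intro x
  have h1 : (fun x => f (x + c)) = f := funext h
  have h2 := deriv_comp_add_const f c x
  rw [h1] at h2
  exact h2.symm

/-- `v ^ 2` for the primitive of a periodic function with mean zero -/
lemma per_prim {w : ℝ → ℝ} (hw : Continuous w) (hp : Function.Periodic w (2 * π))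
    (h0 : ∫ x in (0:ℝ)..(2 * π), w x = 0) :
    Function.Periodic (fun x => ∫ t in (0:ℝ)..x, w t) (2 * π) := by
  intro x
  show ∫ t in (0:ℝ)..(x + 2 * π), w t = ∫ t in (0:ℝ)..x, w t
  have hi : ∀ a b : ℝ, IntervalIntegrable w volume a b := fun a b => hw.intervalIntegrable a b
  rw [← intervalIntegral.integral_add_adjacent_intervals (hi 0 x) (hi x (x + 2 * π)),
    hp.intervalIntegral_add_eq x 0, zero_add, h0, add_zero]

lemma cx_id (a b : ℂ) : ‖a‖ ^ 2 * ‖b‖ ^ 2 = (inner ℝ a b) ^ 2 + ((conj a * b).im) ^ 2 := by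
  rw [Complex.sq_norm, Complex.sq_norm, Complex.normSq_apply, Complex.normSq_apply, Complex.inner]
  simp
  ring

lemma k_ne {f1 f2 : ℝ → ℂ} {r : ℝ → ℝ} (hr : ∀ x, r x = ‖f1 x‖)
    (hrd : Differentiable ℝ r) (hrc : Continuous r)
    (d1 : ∀ x, HasDerivAt f1 (f2 x) x)
    (ne : ∀ x, f1 x ≠ 0) (int0 : ∫ x in (0:ℝ)..(2 * π), f1 x = 0)
    (a1 : ∀ x, r x * deriv r x = inner ℝ (f1 x) (f2 x))
    (hE : ∀ x, (conj (f1 x) * f2 x).im = 0) : False := by
  have r0 : ∀ x, 0 < r x := fun x => by rw [hr]; exact norm_pos_iff.2 (ne x)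
  have hu : ∀ x, HasDerivAt (fun x => f1 x / ((r x : ℝ) : ℂ)) 0 x := by
    intro x
    have h1 : HasDerivAt (fun x => ((r x : ℝ) : ℂ)) ((deriv r x : ℝ) : ℂ) x :=
      (hrd x).hasDerivAt.ofReal_comp
    have hne : ((r x : ℝ) : ℂ) ≠ 0 := by exact_mod_cast (r0 x).ne'
    refine ((d1 x).div h1 hne).congr_deriv ?_
    have h2 : f2 x * ((r x : ℝ) : ℂ) - f1 x * ((deriv r x : ℝ) : ℂ) = 0 := by
      apply mul_left_cancel₀ hne
      rw [mul_zero]
      have h3 : ((r x : ℝ) : ℂ) * ((r x : ℝ) : ℂ) = f1 x * conj (f1 x) := by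
        rw [Complex.mul_conj, Complex.normSq_eq_norm_sq, ← hr]
        push_cast
        ring
      have h4 : ((r x : ℝ) : ℂ) * ((deriv r x : ℝ) : ℂ) = conj (f1 x) * f2 x := by
        rw [← Complex.ofReal_mul, a1]
        apply Complex.ext
        · rw [Complex.ofReal_re, Complex.inner]
          simp
          ring
        · rw [Complex.ofReal_im, hE x]
      calc ((r x : ℝ) : ℂ) * (f2 x * ((r x : ℝ) : ℂ) - f1 x * ((deriv r x : ℝ) : ℂ)) =
          (((r x : ℝ) : ℂ) * ((r x : ℝ) : ℂ)) * f2 x -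
            f1 x * (((r x : ℝ) : ℂ) * ((deriv r x : ℝ) : ℂ)) := by ring
        _ = 0 := by rw [h3, h4]; ring
    rw [h2, zero_div]
  have hc : ∀ x, f1 x / ((r x : ℝ) : ℂ) = f1 0 / ((r 0 : ℝ) : ℂ) := fun x =>
    is_const_of_deriv_eq_zero (fun x => (hu x).differentiableAt) (fun x => (hu x).deriv) x 0
  have hf : ∀ x, f1 x = f1 0 / ((r 0 : ℝ) : ℂ) * ((r x : ℝ) : ℂ) := by
    intro x
    have hne : ((r x : ℝ) : ℂ) ≠ 0 := by exact_mod_cast (r0 x).ne'
    rw [← hc x]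
    field_simp
  have h5 : ∫ x in (0:ℝ)..(2 * π), f1 x =
      f1 0 / ((r 0 : ℝ) : ℂ) * ((∫ x in (0:ℝ)..(2 * π), r x : ℝ) : ℂ) := by
    rw [← intervalIntegral.integral_ofReal, ← intervalIntegral.integral_const_mul]
    exact intervalIntegral.integral_congr fun x _ => hf x
  have h6 : 0 < ∫ x in (0:ℝ)..(2 * π), r x :=
    intervalIntegral.intervalIntegral_pos_of_pos (hrc.intervalIntegrable _ _) r0 (by positivity)
  rw [int0] at h5
  have hne : ((r 0 : ℝ) : ℂ) ≠ 0 := by exact_mod_cast (r0 0).ne'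
  have h7 : (((∫ x in (0:ℝ)..(2 * π), r x : ℝ)) : ℂ) ≠ 0 := by exact_mod_cast h6.ne'
  exact (mul_ne_zero (div_ne_zero (ne 0) hne) h7) h5.symm

theorem exists_q {f1 f2 f3 : ℝ → ℂ} (hf1 : ContDiff ℝ 3 f1) (d1 : ∀ x, HasDerivAt f1 (f2 x) x)
    (d2 : ∀ x, HasDerivAt f2 (f3 x) x) (ne : ∀ x, f1 x ≠ 0) (per : ∀ x, f1 (x + 2 * π) = f1 x)
    (int0 : ∫ x in (0:ℝ)..(2 * π), f1 x = 0) {k : ℝ → ℝ} (hk : ContDiff ℝ 1 k)
    (kper : Function.Periodic k (2 * π))
    (hE : ∀ x, k x * ‖f1 x‖ = (conj (f1 x) * f2 x).im) :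
    ∃ q : ℝ → ℝ, ContDiff ℝ 2 q ∧ Function.Periodic q (2 * π) ∧ ∃ η, 0 < η ∧
      ∀ x, 2 * η < (‖f2 x‖ ^ 2 - inner ℝ (f1 x) (f3 x)) - (q x ^ 2 + k x ^ 2) +
        ‖f1 x‖ * deriv q x := by
  obtain ⟨r, hrdef⟩ : ∃ r : ℝ → ℝ, r = fun x => ‖f1 x‖ := ⟨_, rfl⟩
  have hr : ∀ x, r x = ‖f1 x‖ := fun x => by rw [hrdef]
  have hr3 : ContDiff ℝ 3 r := by
    rw [hrdef]
    exact hf1.norm ℝ ne
  have hr21 : ContDiff ℝ (2 + 1) r := by
    have : (2 : WithTop ℕ∞) + 1 = 3 := by norm_num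
    rw [this]; exact hr3
  have hr'2 : ContDiff ℝ 2 (deriv r) := (contDiff_succ_iff_deriv.1 hr21).2.2
  have hrc : Continuous r := hr3.continuous
  have hrd : Differentiable ℝ r := hr3.differentiable (by norm_num)
  have hr'd : Differentiable ℝ (deriv r) := hr'2.differentiable (by norm_num)
  have r0 : ∀ x, 0 < r x := fun x => by rw [hr]; exact norm_pos_iff.2 (ne x)
  have rper : Function.Periodic r (2 * π) := fun x => by rw [hr, hr, per]
  have a1 : ∀ x, r x * deriv r x = inner ℝ (f1 x) (f2 x) := by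
    intro x
    have h1 : HasDerivAt (fun t => r t ^ 2) (2 * r x * deriv r x) x := by
      refine ((hrd x).hasDerivAt.pow 2).congr_deriv ?_
      push_cast
      ring
    have h2 : HasDerivAt (fun t => ‖f1 t‖ ^ 2) (2 * inner ℝ (f1 x) (f2 x)) x := (d1 x).norm_sq
    have h3 : (fun t => r t ^ 2) = fun t => ‖f1 t‖ ^ 2 := by
      funext t; rw [hr]
    rw [h3] at h1
    have h4 := h1.unique h2
    linarith
  have a2 : ∀ x, deriv r x * deriv r x + r x * deriv (deriv r) x =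
      inner ℝ (f1 x) (f3 x) + ‖f2 x‖ ^ 2 := by
    intro x
    have h1 := (hrd x).hasDerivAt.mul (hr'd x).hasDerivAt
    have h2 := (d1 x).inner ℝ (d2 x)
    have h3 : (r * deriv r) = fun t => inner ℝ (f1 t) (f2 t) := funext a1
    rw [h3] at h1
    have h4 := h1.unique h2
    rw [h4, real_inner_self_eq_norm_sq]
  have a4 : ∀ x, ‖f2 x‖ ^ 2 = deriv r x ^ 2 + k x ^ 2 := by
    intro x
    have h1 := cx_id (f1 x) (f2 x)
    rw [← a1, ← hE, ← hr] at h1
    have h2 : r x ^ 2 ≠ 0 := (pow_pos (r0 x) 2).ne'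
    apply mul_left_cancel₀ h2
    rw [h1]
    ring
  have hk0 : ∃ x ∈ Icc (0:ℝ) (2 * π), k x ≠ 0 := by
    by_contra hcon
    push Not at hcon
    refine k_ne hr hrd hrc d1 ne int0 a1 fun x => ?_
    obtain ⟨y, hy, hxy⟩ := kper.exists_mem_Ico₀ (by positivity) x
    rw [← hE, hxy, hcon y (Ico_subset_Icc_self hy), zero_mul]
  have hr3c : Continuous (fun x => k x ^ 2 / r x ^ 3) :=
    (hk.continuous.pow 2).div (hrc.pow 3) fun x => (pow_pos (r0 x) 3).ne'
  have Ir : 0 < ∫ x in (0:ℝ)..(2 * π), r x :=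
    intervalIntegral.intervalIntegral_pos_of_pos (hrc.intervalIntegrable _ _) r0 (by positivity)
  have Ik : 0 < ∫ x in (0:ℝ)..(2 * π), k x ^ 2 / r x ^ 3 := by
    obtain ⟨x, hx, hkx⟩ := hk0
    refine intervalIntegral.integral_pos (by positivity) hr3c.continuousOn ?_ ⟨x, hx, ?_⟩
    · intro x _
      have := r0 x
      positivity
    · have := r0 x
      positivity
  obtain ⟨K, hKdef⟩ : ∃ K : ℝ, K = (∫ x in (0:ℝ)..(2 * π), k x ^ 2 / r x ^ 3) /
    ∫ x in (0:ℝ)..(2 * π), r x := ⟨_, rfl⟩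
  have hK : 0 < K := by rw [hKdef]; positivity
  obtain ⟨w, hwdef⟩ : ∃ w : ℝ → ℝ, w = fun x => K * r x - k x ^ 2 / r x ^ 3 := ⟨_, rfl⟩
  have hr1 : ContDiff ℝ 1 r := hr3.of_le (by norm_num)
  have hw1 : ContDiff ℝ 1 w := by
    rw [hwdef]
    exact (contDiff_const.mul hr1).sub ((hk.pow 2).div (hr1.pow 3) fun x => (pow_pos (r0 x) 3).ne')
  have hwper : Function.Periodic w (2 * π) := by
    intro x
    rw [hwdef]
    show K * r (x + 2 * π) - k (x + 2 * π) ^ 2 / r (x + 2 * π) ^ 3 = _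
    rw [rper x, kper x]
  have hw0 : ∫ x in (0:ℝ)..(2 * π), w x = 0 := by
    rw [hwdef, intervalIntegral.integral_sub ((hrc.const_mul K).intervalIntegrable _ _)
      (hr3c.intervalIntegrable _ _), intervalIntegral.integral_const_mul, hKdef,
      div_mul_cancel₀ _ Ir.ne', sub_self]
  obtain ⟨v, hvdef⟩ : ∃ v : ℝ → ℝ, v = fun x => ∫ t in (0:ℝ)..x, w t := ⟨_, rfl⟩
  have hvd : ∀ x, HasDerivAt v (w x) x := by
    intro x
    rw [hvdef]
    exact (hw1.continuous.integral_hasStrictDerivAt 0 x).hasDerivAt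
  have hv' : deriv v = w := funext fun x => (hvd x).deriv
  have hv2 : ContDiff ℝ 2 v := by
    have : (1 : WithTop ℕ∞) + 1 = 2 := one_add_one_eq_two
    rw [← this, contDiff_succ_iff_deriv]
    refine ⟨fun x => (hvd x).differentiableAt, by simp, ?_⟩
    rw [hv']
    exact hw1
  have hvper : Function.Periodic v (2 * π) := by
    rw [hvdef]
    exact per_prim hw1.continuous hwper hw0
  obtain ⟨Cv, hCv0, hCv⟩ := per_upper hv2.continuous hvper
  obtain ⟨c0, hc0, hc0r⟩ := per_lower hrc rper r0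
  obtain ⟨e, hedef⟩ : ∃ e : ℝ, e = min (1 / 2) (K / (2 * (Cv ^ 2 + 1))) := ⟨_, rfl⟩
  have he0 : 0 < e := by
    rw [hedef]
    exact lt_min (by norm_num) (by positivity)
  have he1 : e ≤ 1 / 2 := by rw [hedef]; exact min_le_left _ _
  have he2 : ∀ x, e * v x ^ 2 ≤ K / 2 := by
    intro x
    have h1 : v x ^ 2 ≤ Cv ^ 2 := by
      rw [← sq_abs]
      exact pow_le_pow_left₀ (abs_nonneg _) (hCv x) 2
    have h2 : e ≤ K / (2 * (Cv ^ 2 + 1)) := by rw [hedef]; exact min_le_right _ _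
    have h3 : e * (Cv ^ 2 + 1) ≤ K / 2 := by
      calc e * (Cv ^ 2 + 1) ≤ K / (2 * (Cv ^ 2 + 1)) * (Cv ^ 2 + 1) :=
            mul_le_mul_of_nonneg_right h2 (by positivity)
        _ = K / 2 := by field_simp
    nlinarith
  refine ⟨fun x => deriv r x + e * (r x ^ 2 * v x), ?_, ?_, e * c0 ^ 4 * K / 8, by positivity, ?_⟩
  · have hr2 : ContDiff ℝ 2 r := hr3.of_le (by norm_num)
    exact hr'2.add (contDiff_const.mul ((hr2.pow 2).mul hv2))
  · intro x
    show deriv r (x + 2 * π) + e * (r (x + 2 * π) ^ 2 * v (x + 2 * π)) = _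
    rw [per_deriv_real rper x, rper x, hvper x]
  · intro x
    have hq : HasDerivAt (fun x => deriv r x + e * (r x ^ 2 * v x))
        (deriv (deriv r) x + e * (2 * r x * deriv r x * v x + r x ^ 2 * w x)) x := by
      refine ((hr'd x).hasDerivAt.add
        ((((hrd x).hasDerivAt.pow 2).mul (hvd x)).const_mul e)).congr_deriv ?_
      simp
    rw [hq.deriv, ← hr]
    have hw : r x ^ 3 * w x = K * r x ^ 4 - k x ^ 2 := by
      rw [hwdef]
      have : r x ≠ 0 := (r0 x).ne'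
      field_simp
    have h1 := a2 x
    have h2 := a4 x
    have h3 := he2 x
    have h4 : c0 ^ 4 ≤ r x ^ 4 := pow_le_pow_left₀ hc0.le (hc0r x) 4
    have h5 : inner ℝ (f1 x) (f3 x) = deriv r x * deriv r x + r x * deriv (deriv r) x -
        ‖f2 x‖ ^ 2 := by linarith
    rw [h5, h2]
    have e1 : deriv r x ^ 2 + k x ^ 2 - (deriv r x * deriv r x + r x * deriv (deriv r) x -
        (deriv r x ^ 2 + k x ^ 2)) - ((deriv r x + e * (r x ^ 2 * v x)) ^ 2 + k x ^ 2) +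
        r x * (deriv (deriv r) x + e * (2 * r x * deriv r x * v x + r x ^ 2 * w x)) =
        k x ^ 2 + e * (r x ^ 3 * w x) - e ^ 2 * r x ^ 4 * v x ^ 2 := by ring
    rw [e1, hw]
    have h6 : 0 ≤ (1 - e) * k x ^ 2 := mul_nonneg (by linarith) (sq_nonneg _)
    have h7 : 0 ≤ e * r x ^ 4 * (K / 2 - e * v x ^ 2) :=
      mul_nonneg (mul_nonneg he0.le (by positivity)) (by linarith)
    have h8 : e * c0 ^ 4 * K / 2 ≤ e * r x ^ 4 * K / 2 := by
      have : e * c0 ^ 4 * K ≤ e * r x ^ 4 * K :=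
        mul_le_mul_of_nonneg_right (mul_le_mul_of_nonneg_left h4 he0.le) hK.le
      linarith
    have h9 : 0 < e * c0 ^ 4 * K := by positivity
    nlinarith

end Pool.Agent.Y210.MS
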