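import Pool.Agent.Y397.MS.Stm2
import Pool.Agent.Y210.MS.SOFTq

/-!
# The second order condition for collars
-/

set_option autoImplicit false

open MeasureTheory Set Filter Topology Metric
open scoped ENNReal ComplexConjugate Real

namespace Pool.Agent.Y210.MS

open Pool.Agent.Y397.MS

/-! ### Periodic functions -/

/-- the point `x + i y` -/
noncomputable def pt (x y : ℝ) : ℂ := x + y * Complex.I

@[simp] lemma pt_re (x y : ℝ) : (pt x y).re = x := by simp [pt]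
@[simp] lemma pt_im (x y : ℝ) : (pt x y).im = y := by simp [pt]
@[simp] lemma pt_zero (x : ℝ) : pt x 0 = x := by simp [pt]
lemma pt_mem {x y σ : ℝ} (h : |y| < σ) : pt x y ∈ Str σ := by
  show |(pt x y).im| < σ
  rwa [pt_im]
lemma pt_eta (z : ℂ) : pt z.re z.im = z := by
  simp [pt, Complex.re_add_im]

lemma axis_mem {σ : ℝ} (h : 0 < σ) (x : ℝ) : (x : ℂ) ∈ Str σ := by
  show |((x : ℂ)).im| < σ
  simpa using h

/-- reduction modulo the period -/
lemma strip_red {α : Type} {F : ℂ → α} {σ : ℝ} (hp : ∀ z ∈ Str σ, F (z + 2 * π) = F z) {z : ℂ}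
    (hz : z ∈ Str σ) : ∃ z' : ℂ, z'.re ∈ Icc (0:ℝ) (2 * π) ∧ z'.im = z.im ∧ F z' = F z := by
  have hper : Function.Periodic (fun x : ℝ => F (pt x z.im)) (2 * π) := by
    intro x
    show F (pt (x + 2 * π) z.im) = F (pt x z.im)
    rw [← hp (pt x z.im) (pt_mem hz)]
    congr 1
    unfold pt
    push_cast
    ring
  obtain ⟨y, hy, hxy⟩ := hper.exists_mem_Ico₀ (by positivity) z.re
  refine ⟨pt y z.im, ?_, pt_im _ _, ?_⟩
  · rw [pt_re]
    exact Ico_subset_Icc_self hy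
  · have h1 : F (pt z.re z.im) = F (pt y z.im) := hxy
    rw [← h1, pt_eta]

lemma box_compact (s : ℝ) : IsCompact (Icc (0:ℝ) (2 * π) ×ℂ Icc (-s) s) :=
  isCompact_Icc.reProdIm isCompact_Icc

lemma strip_bdd {F : ℂ → ℂ} {σ σ' : ℝ} (hσ : σ' < σ)
    (hF : ContinuousOn F (Str σ)) (hp : ∀ z ∈ Str σ, F (z + 2 * π) = F z) :
    ∃ C, 0 ≤ C ∧ ∀ z ∈ Str σ', ‖F z‖ ≤ C := by
  have hsub : Icc (0:ℝ) (2 * π) ×ℂ Icc (-σ') σ' ⊆ Str σ := by
    intro z hz
    rw [Complex.mem_reProdIm] at hz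
    show |z.im| < σ
    exact (abs_le.2 hz.2).trans_lt hσ
  obtain ⟨C, hC⟩ := (box_compact σ').exists_bound_of_continuousOn (hF.mono hsub)
  refine ⟨max C 0, le_max_right _ _, fun z hz => ?_⟩
  have hz1 : |z.im| < σ' := hz
  obtain ⟨z', h1, h2, h3⟩ := strip_red hp (show z ∈ Str σ from hz1.trans hσ)
  rw [← h3]
  refine (hC z' ?_).trans (le_max_left _ _)
  rw [Complex.mem_reProdIm]
  refine ⟨h1, ?_⟩
  rw [h2]
  exact abs_le.1 hz1.le

/-- an open periodic set which contains the real axis contains a strip -/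
lemma strip_open {A : ℂ → ℝ} {σ a : ℝ} (hσ : 0 < σ) (hA : ContinuousOn A (Str σ))
    (hp : ∀ z ∈ Str σ, A (z + 2 * π) = A z) (h : ∀ x : ℝ, a < A x) :
    ∃ s, 0 < s ∧ s ≤ σ ∧ ∀ z ∈ Str s, a < A z := by
  have hU : IsOpen (Str σ ∩ A ⁻¹' Ioi a) := hA.isOpen_inter_preimage (Str_open σ) isOpen_Ioi
  have hK : IsCompact (Icc (0:ℝ) (2 * π) ×ℂ ({0} : Set ℝ)) := isCompact_Icc.reProdIm isCompact_singleton
  have hKU : Icc (0:ℝ) (2 * π) ×ℂ ({0} : Set ℝ) ⊆ Str σ ∩ A ⁻¹' Ioi a := by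
    intro z hz
    rw [Complex.mem_reProdIm] at hz
    have hz0 : z.im = 0 := hz.2
    have hz1 : z = ((z.re : ℝ) : ℂ) := by
      apply Complex.ext
      · simp
      · simp [hz0]
    rw [hz1]
    exact ⟨axis_mem hσ _, h _⟩
  obtain ⟨δ, hδ, hδU⟩ := hK.exists_thickening_subset_open hU hKU
  refine ⟨min δ σ, lt_min hδ hσ, min_le_right _ _, fun z hz => ?_⟩
  have hz1 : |z.im| < min δ σ := hz
  obtain ⟨z', h1, h2, h3⟩ := strip_red hp (show z ∈ Str σ from hz1.trans_le (min_le_right _ _))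
  rw [← h3]
  refine (hδU ?_).2
  rw [Metric.mem_thickening_iff]
  refine ⟨((z'.re : ℝ) : ℂ), ?_, ?_⟩
  · rw [Complex.mem_reProdIm]
    exact ⟨by simpa using h1, by simp⟩
  · have h4 : z' - ((z'.re : ℝ) : ℂ) = z'.im * Complex.I := by
      apply Complex.ext <;> simp
    rw [dist_eq_norm, h4, norm_mul, Complex.norm_I, mul_one, Complex.norm_real, Real.norm_eq_abs, h2]
    exact hz1.trans_le (min_le_left _ _)

lemma per_deriv {h : ℂ → ℂ} {σ : ℝ} (hp : ∀ z ∈ Str σ, h (z + 2 * π) = h z) :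
    ∀ z ∈ Str σ, deriv h (z + 2 * π) = deriv h z := by
  intro z hz
  have h1 : (fun w => h (w + 2 * π)) =ᶠ[𝓝 z] h := by
    filter_upwards [(Str_open σ).mem_nhds hz] with w hw using hp w hw
  have h2 := h1.deriv_eq
  rwa [deriv_comp_add_const] at h2

/-! ### Second order Taylor formula -/

lemma taylor2 {g g1 g2 : ℝ → ℝ} {s η : ℝ} (h1 : ∀ y, |y| < s → HasDerivAt g (g1 y) y)
    (h2 : ∀ y, |y| < s → HasDerivAt g1 (g2 y) y) (h3 : ∀ y, |y| < s → 2 * η ≤ g2 y)
    (h0 : g 0 = 0) (h10 : g1 0 = 0) (y : ℝ) (hy : |y| < s) : η * y ^ 2 ≤ g y := by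
  have hs : 0 < s := (abs_nonneg y).trans_lt hy
  have hm : MonotoneOn (fun y => g1 y - 2 * η * y) (Ioo (-s) s) := by
    refine monotoneOn_of_deriv_nonneg (convex_Ioo _ _) ?_ ?_ ?_
    · intro t ht
      exact ((h2 t (abs_lt.2 ht)).sub ((hasDerivAt_id t).const_mul (2 * η))).continuousAt.continuousWithinAt
    · intro t ht
      rw [interior_Ioo] at ht
      exact ((h2 t (abs_lt.2 ht)).sub
        ((hasDerivAt_id t).const_mul (2 * η))).differentiableAt.differentiableWithinAt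
    · intro t ht
      rw [interior_Ioo] at ht
      have h4 : HasDerivAt (fun y => g1 y - 2 * η * y) (g2 t - 2 * η * 1) t :=
        (h2 t (abs_lt.2 ht)).sub ((hasDerivAt_id t).const_mul (2 * η))
      rw [h4.deriv]
      have := h3 t (abs_lt.2 ht)
      linarith
  have hd : ∀ t, |t| < s → HasDerivAt (fun y => g y - η * y ^ 2) (g1 t - 2 * η * t) t := by
    intro t ht
    have h5 := (h1 t ht).sub ((hasDerivAt_pow 2 t).const_mul η)
    refine h5.congr_deriv ?_
    push_cast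
    ring
  rcases le_total 0 y with hy0 | hy0
  · have hmono : MonotoneOn (fun y => g y - η * y ^ 2) (Icc 0 y) := by
      refine monotoneOn_of_deriv_nonneg (convex_Icc _ _) ?_ ?_ ?_
      · intro t ht
        refine (hd t ?_).continuousAt.continuousWithinAt
        rw [abs_of_nonneg ht.1]
        exact ht.2.trans_lt ((le_abs_self y).trans_lt hy)
      · intro t ht
        rw [interior_Icc] at ht
        refine (hd t ?_).differentiableAt.differentiableWithinAt
        rw [abs_of_pos ht.1]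
        exact ht.2.trans ((le_abs_self y).trans_lt hy)
      · intro t ht
        rw [interior_Icc] at ht
        have ht' : |t| < s := by
          rw [abs_of_pos ht.1]
          exact ht.2.trans ((le_abs_self y).trans_lt hy)
        rw [(hd t ht').deriv]
        have h6 := hm (show (0:ℝ) ∈ Ioo (-s) s from ⟨by linarith, hs⟩) (abs_lt.1 ht') ht.1.le
        simp only [mul_zero, sub_zero, h10] at h6
        exact h6
    have h7 := hmono (left_mem_Icc.2 hy0) (right_mem_Icc.2 hy0) hy0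
    simp only [h0] at h7
    nlinarith
  · have hanti : AntitoneOn (fun y => g y - η * y ^ 2) (Icc y 0) := by
      refine antitoneOn_of_deriv_nonpos (convex_Icc _ _) ?_ ?_ ?_
      · intro t ht
        refine (hd t ?_).continuousAt.continuousWithinAt
        rw [abs_of_nonpos ht.2]
        exact (neg_le_neg ht.1).trans_lt ((neg_le_abs y).trans_lt hy)
      · intro t ht
        rw [interior_Icc] at ht
        refine (hd t ?_).differentiableAt.differentiableWithinAt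
        rw [abs_of_neg ht.2]
        exact (neg_lt_neg ht.1).trans ((neg_le_abs y).trans_lt hy)
      · intro t ht
        rw [interior_Icc] at ht
        have ht' : |t| < s := by
          rw [abs_of_neg ht.2]
          exact (neg_lt_neg ht.1).trans ((neg_le_abs y).trans_lt hy)
        rw [(hd t ht').deriv]
        have h6 := hm (abs_lt.1 ht') (show (0:ℝ) ∈ Ioo (-s) s from ⟨by linarith, hs⟩) ht.2.le
        simp only [mul_zero, sub_zero, h10] at h6
        exact h6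
    have h7 := hanti (left_mem_Icc.2 hy0) (right_mem_Icc.2 hy0) hy0
    simp only [h0] at h7
    nlinarith

/-! ### Vertical derivatives -/

lemma pt_deriv (x y : ℝ) : HasDerivAt (fun t : ℝ => pt x t) Complex.I y := by
  have h1 : HasDerivAt (fun t : ℝ => ((t : ℝ) : ℂ)) 1 y := Complex.ofRealCLM.hasDerivAt
  have h2 := (h1.mul_const Complex.I).const_add (x : ℂ)
  rw [one_mul] at h2
  exact h2

lemma vert {F : ℂ → ℂ} {F' : ℂ} {x y : ℝ} (h : HasDerivAt F F' (pt x y)) :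
    HasDerivAt (fun t : ℝ => F (pt x t)) (Complex.I * F') y := by
  have h1 := HasDerivAt.scomp y h (pt_deriv x y)
  exact h1

lemma vert_im {F : ℝ → ℂ} {F' : ℂ} {y : ℝ} (h : HasDerivAt F F' y) :
    HasDerivAt (fun t : ℝ => (((F t).im : ℝ) : ℂ)) ((F'.im : ℝ) : ℂ) y := by
  have h1 := Complex.imCLM.hasFDerivAt.comp_hasDerivAt y h
  exact Complex.ofRealCLM.hasFDerivAt.comp_hasDerivAt y h1

lemma vert_re {F : ℝ → ℂ} {F' : ℂ} {y : ℝ} (h : HasDerivAt F F' y) :
    HasDerivAt (fun t : ℝ => (((F t).re : ℝ) : ℂ)) ((F'.re : ℝ) : ℂ) y := by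
  have h1 := Complex.reCLM.hasFDerivAt.comp_hasDerivAt y h
  exact Complex.ofRealCLM.hasFDerivAt.comp_hasDerivAt y h1

lemma vert_conj {F : ℝ → ℂ} {F' : ℂ} {y : ℝ} (h : HasDerivAt F F' y) :
    HasDerivAt (fun t : ℝ => conj (F t)) (conj F') y :=
  (Complex.conjCLE : ℂ →L[ℝ] ℂ).hasFDerivAt.comp_hasDerivAt y h

/-! ### The terms of the jump field -/

noncomputable def T0 (h : ℂ → ℂ) (z : ℂ) : ℂ := ((vh h z : ℝ) : ℂ) * gv h z

noncomputable def T1 (h : ℂ → ℂ) (z : ℂ) : ℂ :=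
  (((deriv h z).re : ℝ) : ℂ) * gv h z + ((vh h z : ℝ) : ℂ) * conj (deriv (deriv h) z)

noncomputable def T2 (h : ℂ → ℂ) (z : ℂ) : ℂ :=
  ((((-(deriv (deriv h) z).im : ℝ) : ℂ)) * gv h z +
    (((deriv h z).re : ℝ) : ℂ) * conj (deriv (deriv h) z)) +
  ((((deriv h z).re : ℝ) : ℂ) * conj (deriv (deriv h) z) +
    ((vh h z : ℝ) : ℂ) * (-Complex.I * conj (deriv (deriv (deriv h)) z)))

section

variable {h : ℂ → ℂ} {σ : ℝ} {x y : ℝ}

lemma vh_vert (hh : DifferentiableOn ℂ h (Str σ)) (hy : |y| < σ) :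
    HasDerivAt (fun t : ℝ => ((vh h (pt x t) : ℝ) : ℂ)) (((deriv h (pt x y)).re : ℝ) : ℂ) y := by
  have h1 := vert_im (vert (hd hh (pt_mem hy (x := x))))
  refine h1.congr_deriv ?_
  simp

lemma re_vert (hh : DifferentiableOn ℂ h (Str σ)) (hy : |y| < σ) :
    HasDerivAt (fun t : ℝ => (((deriv h (pt x t)).re : ℝ) : ℂ))
      ((-(deriv (deriv h) (pt x y)).im : ℝ) : ℂ) y := by
  have h1 := vert_re (vert (hd (hdd hh) (pt_mem hy (x := x))))
  refine h1.congr_deriv ?_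
  simp

lemma gv_vert (hh : DifferentiableOn ℂ h (Str σ)) (hy : |y| < σ) :
    HasDerivAt (fun t : ℝ => gv h (pt x t)) (conj (deriv (deriv h) (pt x y))) y := by
  have h1 := (vert_conj (vert (hd (hdd hh) (pt_mem hy (x := x))))).const_mul Complex.I
  refine h1.congr_deriv ?_
  rw [map_mul, Complex.conj_I, ← mul_assoc]
  simp

lemma cj_vert (hh : DifferentiableOn ℂ h (Str σ)) (hy : |y| < σ) :
    HasDerivAt (fun t : ℝ => conj (deriv (deriv h) (pt x t)))
      (-Complex.I * conj (deriv (deriv (deriv h)) (pt x y))) y := by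
  have h1 := vert_conj (vert (hd (hdd (hdd hh)) (pt_mem hy (x := x))))
  refine h1.congr_deriv ?_
  rw [map_mul, Complex.conj_I]

lemma T0_vert (hh : DifferentiableOn ℂ h (Str σ)) (hy : |y| < σ) :
    HasDerivAt (fun t : ℝ => T0 h (pt x t)) (T1 h (pt x y)) y :=
  (vh_vert hh hy).mul (gv_vert hh hy)

lemma T1_vert (hh : DifferentiableOn ℂ h (Str σ)) (hy : |y| < σ) :
    HasDerivAt (fun t : ℝ => T1 h (pt x t)) (T2 h (pt x y)) y :=
  ((re_vert hh hy).mul (gv_vert hh hy)).add ((vh_vert hh hy).mul (cj_vert hh hy))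

lemma cont_hol (hh : DifferentiableOn ℂ h (Str σ)) : ContinuousOn h (Str σ) := hh.continuousOn

lemma vh_cont (hh : DifferentiableOn ℂ h (Str σ)) :
    ContinuousOn (fun z => ((vh h z : ℝ) : ℂ)) (Str σ) :=
  Complex.continuous_ofReal.comp_continuousOn (Complex.continuous_im.comp_continuousOn hh.continuousOn)

lemma re_cont (hh : DifferentiableOn ℂ h (Str σ)) :
    ContinuousOn (fun z => (((h z).re : ℝ) : ℂ)) (Str σ) :=
  Complex.continuous_ofReal.comp_continuousOn (Complex.continuous_re.comp_continuousOn hh.continuousOn)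

lemma cj_cont (hh : DifferentiableOn ℂ h (Str σ)) :
    ContinuousOn (fun z => conj (h z)) (Str σ) :=
  Complex.continuous_conj.comp_continuousOn hh.continuousOn

lemma gv_cont (hh : DifferentiableOn ℂ h (Str σ)) : ContinuousOn (gv h) (Str σ) :=
  continuousOn_const.mul (cj_cont (hdd hh))

lemma T0_cont (hh : DifferentiableOn ℂ h (Str σ)) : ContinuousOn (T0 h) (Str σ) :=
  (vh_cont hh).mul (gv_cont hh)

lemma T1_cont (hh : DifferentiableOn ℂ h (Str σ)) : ContinuousOn (T1 h) (Str σ) :=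
  ((re_cont (hdd hh)).mul (gv_cont hh)).add ((vh_cont hh).mul (cj_cont (hdd (hdd hh))))

lemma T2_cont (hh : DifferentiableOn ℂ h (Str σ)) : ContinuousOn (T2 h) (Str σ) := by
  have h1 : ContinuousOn (fun z => ((-(deriv (deriv h) z).im : ℝ) : ℂ)) (Str σ) :=
    Complex.continuous_ofReal.comp_continuousOn
      (Complex.continuous_im.comp_continuousOn (hdd (hdd hh)).continuousOn).neg
  exact ((h1.mul (gv_cont hh)).add ((re_cont (hdd hh)).mul (cj_cont (hdd (hdd hh))))).add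
    (((re_cont (hdd hh)).mul (cj_cont (hdd (hdd hh)))).add
      ((vh_cont hh).mul (continuousOn_const.mul (cj_cont (hdd (hdd (hdd hh)))))))

lemma T_per (hp : ∀ z ∈ Str σ, h (z + 2 * π) = h z) {z : ℂ} (hz : z ∈ Str σ) :
    T0 h (z + 2 * π) = T0 h z ∧ T1 h (z + 2 * π) = T1 h z ∧ T2 h (z + 2 * π) = T2 h z := by
  have h0 := hp z hz
  have h1 := per_deriv hp z hz
  have h2 := per_deriv (per_deriv hp) z hz
  have h3 := per_deriv (per_deriv (per_deriv hp)) z hz
  unfold T0 T1 T2 vh gv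
  rw [h0, h1, h2, h3]
  exact ⟨rfl, rfl, rfl⟩

lemma axis_deriv {F : ℂ → ℂ} (hσ : 0 < σ) (hF : DifferentiableOn ℂ F (Str σ)) (x : ℝ) :
    HasDerivAt (fun t : ℝ => F t) (deriv F x) x := (hd hF (axis_mem hσ x)).comp_ofReal

lemma real_deriv (hσ : 0 < σ) (hh : DifferentiableOn ℂ h (Str σ)) (hr : ∀ t : ℝ, (h t).im = 0)
    (t : ℝ) : (deriv h t).im = 0 := by
  have h1 := axis_deriv hσ hh t
  have h2 : HasDerivAt (fun s : ℝ => (h s).im) (deriv h t).im t :=
    Complex.imCLM.hasFDerivAt.comp_hasDerivAt t h1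
  have h3 : (fun s : ℝ => (h s).im) = fun _ => 0 := funext hr
  rw [h3] at h2
  exact h2.unique (hasDerivAt_const t 0)

lemma eq_re {z : ℂ} (h : z.im = 0) : z = ((z.re : ℝ) : ℂ) := by
  apply Complex.ext
  · simp
  · simp [h]

lemma T_axis (hσ : 0 < σ) (hh : DifferentiableOn ℂ h (Str σ)) (hr : ∀ t : ℝ, (h t).im = 0)
    (t : ℝ) : T0 h t = 0 ∧ T1 h t = Complex.I * (((deriv h t).re ^ 2 : ℝ) : ℂ) ∧
      (T2 h t).im = 0 := by
  have h0 := hr t
  have h1 := real_deriv hσ hh hr t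
  have h2 := real_deriv hσ (hdd hh) (real_deriv hσ hh hr) t
  refine ⟨?_, ?_, ?_⟩
  · unfold T0 vh
    rw [h0]
    simp
  · unfold T1 vh gv
    rw [h0, eq_re h1, Complex.conj_ofReal, Complex.ofReal_re]
    push_cast
    ring
  · unfold T2 vh gv
    rw [h0, h2, eq_re h1, eq_re h2]
    simp

end

/-! ### the divergence free part -/

section

variable {r q : ℝ → ℝ} {x y : ℝ}

noncomputable def P1 (q : ℝ → ℝ) (z : ℂ) : ℂ :=
  ((q z.re : ℝ) : ℂ) - Complex.I * ((z.im : ℂ) * ((deriv q z.re : ℝ) : ℂ))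

noncomputable def P2 (q : ℝ → ℝ) (z : ℂ) : ℂ := -(Complex.I * ((deriv q z.re : ℝ) : ℂ))

lemma re_hd (y : ℝ) : HasDerivAt (fun t : ℝ => ((t : ℝ) : ℂ)) 1 y := Complex.ofRealCLM.hasDerivAt

lemma PP_vert : HasDerivAt (fun t : ℝ => PP r q (pt x t)) (P1 q (pt x y)) y := by
  have h1 := ((re_hd y).mul_const ((q x : ℝ) : ℂ)).add
    (((((re_hd y).mul (re_hd y)).mul_const ((deriv q x / 2 : ℝ) : ℂ)).const_sub
      ((r x : ℝ) : ℂ)).const_mul Complex.I)
  have e1 : (fun t : ℝ => PP r q (pt x t)) = fun t : ℝ => ((t : ℝ) : ℂ) * ((q x : ℝ) : ℂ) +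
      Complex.I * (((r x : ℝ) : ℂ) - ((t : ℝ) : ℂ) * ((t : ℝ) : ℂ) * ((deriv q x / 2 : ℝ) : ℂ)) := by
    funext t
    unfold PP
    rw [pt_re, pt_im]
  rw [e1]
  refine h1.congr_deriv ?_
  unfold P1
  rw [pt_re, pt_im]
  push_cast
  ring

lemma P1_vert : HasDerivAt (fun t : ℝ => P1 q (pt x t)) (P2 q (pt x y)) y := by
  have h1 := (((re_hd y).mul_const ((deriv q x : ℝ) : ℂ)).const_mul Complex.I).const_sub
    ((q x : ℝ) : ℂ)
  have e1 : (fun t : ℝ => P1 q (pt x t)) = fun t : ℝ => ((q x : ℝ) : ℂ) -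
      Complex.I * (((t : ℝ) : ℂ) * ((deriv q x : ℝ) : ℂ)) := by
    funext t
    unfold P1
    rw [pt_re, pt_im]
  rw [e1]
  refine h1.congr_deriv ?_
  unfold P2
  rw [pt_re]
  ring

end

/-! ### The difference of the squares -/

section

variable {φ hL hR : ℂ → ℂ} {r q : ℝ → ℝ} {σ x y : ℝ}

noncomputable def N1 (hL hR : ℂ → ℂ) (q : ℝ → ℝ) (z : ℂ) : ℂ := -T1 hR z + T1 hL z + P1 q z

noncomputable def N2 (hL hR : ℂ → ℂ) (q : ℝ → ℝ) (z : ℂ) : ℂ := -T2 hR z + T2 hL z + P2 q z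

lemma NN_eq (z : ℂ) : NN hL hR r q z = -T0 hR z + T0 hL z + PP r q z := by
  unfold NN T0
  rw [neg_mul]

lemma NN_vert (hhL : DifferentiableOn ℂ hL (Str σ)) (hhR : DifferentiableOn ℂ hR (Str σ))
    (hy : |y| < σ) : HasDerivAt (fun t : ℝ => NN hL hR r q (pt x t)) (N1 hL hR q (pt x y)) y := by
  have e1 : (fun t : ℝ => NN hL hR r q (pt x t)) =
      fun t : ℝ => -T0 hR (pt x t) + T0 hL (pt x t) + PP r q (pt x t) := by
    funext t
    exact NN_eq _
  rw [e1]
  exact ((T0_vert hhR hy).neg.add (T0_vert hhL hy)).add PP_vert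

lemma N1_vert (hhL : DifferentiableOn ℂ hL (Str σ)) (hhR : DifferentiableOn ℂ hR (Str σ))
    (hy : |y| < σ) : HasDerivAt (fun t : ℝ => N1 hL hR q (pt x t)) (N2 hL hR q (pt x y)) y :=
  ((T1_vert hhR hy).neg.add (T1_vert hhL hy)).add P1_vert

noncomputable def G0 (φ hL hR : ℂ → ℂ) (r q : ℝ → ℝ) (z : ℂ) : ℝ :=
  ‖deriv φ z‖ ^ 2 - ‖NN hL hR r q z‖ ^ 2

noncomputable def G1 (φ hL hR : ℂ → ℂ) (r q : ℝ → ℝ) (z : ℂ) : ℝ :=
  2 * inner ℝ (deriv φ z) (Complex.I * deriv (deriv φ) z) -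
    2 * inner ℝ (NN hL hR r q z) (N1 hL hR q z)

noncomputable def G2 (φ hL hR : ℂ → ℂ) (r q : ℝ → ℝ) (z : ℂ) : ℝ :=
  2 * (inner ℝ (deriv φ z) (Complex.I * (Complex.I * deriv (deriv (deriv φ)) z)) +
      inner ℝ (Complex.I * deriv (deriv φ) z) (Complex.I * deriv (deriv φ) z)) -
    2 * (inner ℝ (NN hL hR r q z) (N2 hL hR q z) +
      inner ℝ (N1 hL hR q z) (N1 hL hR q z))

lemma G0_vert (hφ : DifferentiableOn ℂ φ (Str σ)) (hhL : DifferentiableOn ℂ hL (Str σ))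
    (hhR : DifferentiableOn ℂ hR (Str σ)) (hy : |y| < σ) :
    HasDerivAt (fun t : ℝ => G0 φ hL hR r q (pt x t)) (G1 φ hL hR r q (pt x y)) y :=
  (vert (hd (hdd hφ) (pt_mem hy))).norm_sq.sub (NN_vert hhL hhR hy).norm_sq

lemma G1_vert (hφ : DifferentiableOn ℂ φ (Str σ)) (hhL : DifferentiableOn ℂ hL (Str σ))
    (hhR : DifferentiableOn ℂ hR (Str σ)) (hy : |y| < σ) :
    HasDerivAt (fun t : ℝ => G1 φ hL hR r q (pt x t)) (G2 φ hL hR r q (pt x y)) y := by
  have h1 := (vert (hd (hdd hφ) (pt_mem hy (x := x)))).inner ℝ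
    ((vert (hd (hdd (hdd hφ)) (pt_mem hy (x := x)))).const_mul Complex.I)
  have h2 := (NN_vert (r := r) (q := q) (x := x) hhL hhR hy).inner ℝ
    (N1_vert (q := q) (x := x) hhL hhR hy)
  exact (h1.const_mul 2).sub (h2.const_mul 2)

lemma G2_cont (hφ : DifferentiableOn ℂ φ (Str σ)) (hhL : DifferentiableOn ℂ hL (Str σ))
    (hhR : DifferentiableOn ℂ hR (Str σ)) (hr : Continuous r) (hq : Continuous q)
    (hq' : Continuous (deriv q)) : ContinuousOn (G2 φ hL hR r q) (Str σ) := by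
  have hr1 : Continuous (fun z : ℂ => ((r z.re : ℝ) : ℂ)) :=
    Complex.continuous_ofReal.comp (hr.comp Complex.continuous_re)
  have hq1 : Continuous (fun z : ℂ => ((q z.re : ℝ) : ℂ)) :=
    Complex.continuous_ofReal.comp (hq.comp Complex.continuous_re)
  have hq2 : Continuous (fun z : ℂ => ((deriv q z.re : ℝ) : ℂ)) :=
    Complex.continuous_ofReal.comp (hq'.comp Complex.continuous_re)
  have hq3 : Continuous (fun z : ℂ => ((deriv q z.re / 2 : ℝ) : ℂ)) :=
    Complex.continuous_ofReal.comp ((hq'.comp Complex.continuous_re).div_const 2)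
  have him : Continuous (fun z : ℂ => ((z.im : ℝ) : ℂ)) :=
    Complex.continuous_ofReal.comp Complex.continuous_im
  have hPP : Continuous (PP r q) :=
    (him.mul hq1).add (continuous_const.mul (hr1.sub ((him.mul him).mul hq3)))
  have hP1 : Continuous (P1 q) := hq1.sub (continuous_const.mul (him.mul hq2))
  have hP2 : Continuous (P2 q) := (continuous_const.mul hq2).neg
  have hN0 : ContinuousOn (NN hL hR r q) (Str σ) := by
    have e1 : NN hL hR r q = fun z => -T0 hR z + T0 hL z + PP r q z := funext NN_eq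
    rw [e1]
    exact ((T0_cont hhR).neg.add (T0_cont hhL)).add hPP.continuousOn
  have hN1 : ContinuousOn (N1 hL hR q) (Str σ) :=
    ((T1_cont hhR).neg.add (T1_cont hhL)).add hP1.continuousOn
  have hN2 : ContinuousOn (N2 hL hR q) (Str σ) :=
    ((T2_cont hhR).neg.add (T2_cont hhL)).add hP2.continuousOn
  have c1 := (hdd hφ).continuousOn
  have c2 := (hdd (hdd hφ)).continuousOn
  have c3 := (hdd (hdd (hdd hφ))).continuousOn
  exact (continuousOn_const.mul ((c1.inner (𝕜 := ℝ) (continuousOn_const.mul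
    (continuousOn_const.mul c3))).add ((continuousOn_const.mul c2).inner (𝕜 := ℝ)
      (continuousOn_const.mul c2)))).sub
    (continuousOn_const.mul ((hN0.inner (𝕜 := ℝ) hN2).add (hN1.inner (𝕜 := ℝ) hN1)))

lemma re_per (z : ℂ) : (z + 2 * π).re = z.re + 2 * π := by simp
lemma im_per (z : ℂ) : (z + 2 * π).im = z.im := by simp

lemma G2_per (pφ : ∀ z ∈ Str σ, φ (z + 2 * π) = φ z) (pL : ∀ z ∈ Str σ, hL (z + 2 * π) = hL z)
    (pR : ∀ z ∈ Str σ, hR (z + 2 * π) = hR z) (pr : Function.Periodic r (2 * π))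
    (pq : Function.Periodic q (2 * π)) :
    ∀ z ∈ Str σ, G2 φ hL hR r q (z + 2 * π) = G2 φ hL hR r q z := by
  intro z hz
  have h1 := per_deriv pφ z hz
  have h2 := per_deriv (per_deriv pφ) z hz
  have h3 := per_deriv (per_deriv (per_deriv pφ)) z hz
  obtain ⟨l0, l1, l2⟩ := T_per pL hz
  obtain ⟨r0, r1, r2⟩ := T_per pR hz
  have pq' := per_deriv_real pq
  have e0 : NN hL hR r q (z + 2 * π) = NN hL hR r q z := by
    rw [NN_eq, NN_eq, l0, r0]
    unfold PP
    rw [re_per, im_per, pr z.re, pq z.re, pq' z.re]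
  have e1 : N1 hL hR q (z + 2 * π) = N1 hL hR q z := by
    unfold N1 P1
    rw [l1, r1, re_per, im_per, pq z.re, pq' z.re]
  have e2 : N2 hL hR q (z + 2 * π) = N2 hL hR q z := by
    unfold N2 P2
    rw [l2, r2, re_per, pq' z.re]
  unfold G2
  rw [h1, h2, h3, e0, e1, e2]

lemma G_axis (hσ : 0 < σ) (hhL : DifferentiableOn ℂ hL (Str σ))
    (hhR : DifferentiableOn ℂ hR (Str σ)) (rL : ∀ t : ℝ, (hL t).im = 0)
    (rR : ∀ t : ℝ, (hR t).im = 0) (hr : ∀ x : ℝ, r x = ‖deriv φ x‖)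
    (hE : ∀ t : ℝ, ((deriv hR t).re ^ 2 - (deriv hL t).re ^ 2) * ‖deriv φ t‖
      = (conj (deriv φ t) * deriv (deriv φ) t).im) (x : ℝ) :
    G0 φ hL hR r q x = 0 ∧ G1 φ hL hR r q x = 0 ∧
    G2 φ hL hR r q x = 2 * ((‖deriv (deriv φ) x‖ ^ 2 -
      inner ℝ (deriv φ x) (deriv (deriv (deriv φ)) x)) -
      (q x ^ 2 + ((deriv hR x).re ^ 2 - (deriv hL x).re ^ 2) ^ 2) + ‖deriv φ x‖ * deriv q x) := by
  obtain ⟨l0, l1, l2⟩ := T_axis hσ hhL rL x
  obtain ⟨r0, r1, r2⟩ := T_axis hσ hhR rR x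
  have e0 : NN hL hR r q x = Complex.I * ((r x : ℝ) : ℂ) := by
    rw [NN_eq, l0, r0]
    unfold PP
    simp
  have e1 : N1 hL hR q x = ((q x : ℝ) : ℂ) -
      Complex.I * ((((deriv hR x).re ^ 2 - (deriv hL x).re ^ 2 : ℝ)) : ℂ) := by
    unfold N1 P1
    rw [l1, r1]
    simp
    ring
  have e2 : (N2 hL hR q x).im = -deriv q x := by
    unfold N2 P2
    simp [l2, r2]
  have i1 : ∀ (a : ℝ) (b : ℂ), inner ℝ (Complex.I * ((a : ℝ) : ℂ)) b = a * b.im := by
    intro a b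
    rw [Complex.inner]
    simp
    ring
  have i2 : ∀ a b : ℂ, inner ℝ a (Complex.I * b) = -(conj a * b).im := by
    intro a b
    rw [Complex.inner]
    simp
    ring
  have i3 : ∀ a b : ℂ, inner ℝ a (Complex.I * (Complex.I * b)) = -inner ℝ a b := by
    intro a b
    rw [← mul_assoc, Complex.I_mul_I, neg_one_mul, inner_neg_right]
  have i4 : ∀ a b : ℝ, (((a : ℝ) : ℂ) - Complex.I * ((b : ℝ) : ℂ)).im = -b := by
    intro a b
    simp
  have i5 : ∀ a b : ℝ, ‖((a : ℝ) : ℂ) - Complex.I * ((b : ℝ) : ℂ)‖ ^ 2 = a ^ 2 + b ^ 2 := by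
    intro a b
    rw [Complex.sq_norm, Complex.normSq_apply]
    simp
    ring
  refine ⟨?_, ?_, ?_⟩
  · unfold G0
    rw [e0, norm_mul, Complex.norm_I, one_mul, Complex.norm_real, Real.norm_eq_abs, sq_abs, hr,
      sub_self]
  · unfold G1
    rw [e0, i1, i2, e1, ← hE, ← hr, i4]
    ring
  · unfold G2
    rw [e0, i1, i3, e2, real_inner_self_eq_norm_sq, real_inner_self_eq_norm_sq, norm_mul,
      Complex.norm_I, one_mul, e1, ← hr, i5]
    ring

end

/-! ### Bounds -/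

lemma Str_convex (σ : ℝ) : Convex ℝ (Str σ) := by
  have h1 : Str σ = Complex.imCLM ⁻¹' (Ioo (-σ) σ) := by
    ext z
    show |z.im| < σ ↔ z.im ∈ Ioo (-σ) σ
    rw [abs_lt]
    rfl
  rw [h1]
  exact (convex_Ioo (-σ) σ).linear_preimage Complex.imCLM.toLinearMap

lemma im_bound {h : ℂ → ℂ} {σ σ' C : ℝ} (h0 : 0 < σ') (hσ : σ' ≤ σ)
    (hh : DifferentiableOn ℂ h (Str σ)) (hr : ∀ t : ℝ, (h t).im = 0)
    (hC : ∀ z ∈ Str σ', ‖deriv h z‖ ≤ C) : ∀ z ∈ Str σ', |(h z).im| ≤ C * |z.im| := by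
  intro z hz
  have hsub : ∀ w ∈ Str σ', w ∈ Str σ := fun w hw => lt_of_lt_of_le (show |w.im| < σ' from hw) hσ
  have h1 := (Str_convex σ').norm_image_sub_le_of_norm_deriv_le
    (fun w hw => (hd hh (hsub w hw)).differentiableAt) hC (axis_mem h0 z.re) hz
  have h2 : z - ((z.re : ℝ) : ℂ) = z.im * Complex.I := by
    apply Complex.ext <;> simp
  rw [h2, norm_mul, Complex.norm_I, mul_one, Complex.norm_real, Real.norm_eq_abs] at h1
  have h3 : (h z).im = (h z - h ((z.re : ℝ) : ℂ)).im := by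
    rw [Complex.sub_im, hr z.re, sub_zero]
  rw [h3]
  exact (Complex.abs_im_le_norm _).trans h1

lemma axis_contDiff {F : ℂ → ℂ} {σ : ℝ} (h0 : 0 < σ) (hF : DifferentiableOn ℂ F (Str σ))
    (n : WithTop ℕ∞) : ContDiff ℝ n (fun x : ℝ => F x) := by
  rw [contDiff_iff_contDiffAt]
  intro x
  have h1 : ContDiffAt ℝ n F (x : ℂ) :=
    ((hF.analyticAt ((Str_open σ).mem_nhds (axis_mem h0 x))).contDiffAt (n := n)).restrict_scalars ℝ
  exact ContDiffAt.comp x h1 Complex.ofRealCLM.contDiff.contDiffAt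

theorem soft : SOFT := by
  intro φ hL hR σ hC hhL hhR pL pR rL rR hE
  have hσ := hC.pos
  have hφ := hC.diff
  have pφ := hC.per
  have hf1c : ContDiff ℝ 3 (fun x : ℝ => deriv φ x) := axis_contDiff hσ (hdd hφ) 3
  have ne : ∀ x : ℝ, deriv φ x ≠ 0 := fun x => hC.ne x (axis_mem hσ x)
  have perA : ∀ F : ℂ → ℂ, (∀ z ∈ Str σ, F (z + 2 * π) = F z) → ∀ x : ℝ,
      F ((x + 2 * π : ℝ) : ℂ) = F x := by
    intro F hF x
    rw [← hF x (axis_mem hσ x)]
    push_cast
    rfl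
  have p1 := per_deriv pφ
  refine ⟨(hf1c.norm ℝ ne).of_le (by norm_num), ?_⟩
  have hk : ContDiff ℝ 1 (fun x : ℝ => (deriv hR x).re ^ 2 - (deriv hL x).re ^ 2) := by
    have h1 : ContDiff ℝ 1 (fun x : ℝ => (deriv hR x).re) :=
      Complex.reCLM.contDiff.comp (axis_contDiff hσ (hdd hhR) 1)
    have h2 : ContDiff ℝ 1 (fun x : ℝ => (deriv hL x).re) :=
      Complex.reCLM.contDiff.comp (axis_contDiff hσ (hdd hhL) 1)
    exact (h1.pow 2).sub (h2.pow 2)
  have kper : Function.Periodic (fun x : ℝ => (deriv hR x).re ^ 2 - (deriv hL x).re ^ 2)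
      (2 * π) := by
    intro x
    show (deriv hR ((x + 2 * π : ℝ) : ℂ)).re ^ 2 - (deriv hL ((x + 2 * π : ℝ) : ℂ)).re ^ 2 = _
    rw [perA _ (per_deriv pR), perA _ (per_deriv pL)]
  have int0 : ∫ x in (0:ℝ)..(2 * π), deriv φ x = 0 := by
    rw [intervalIntegral.integral_eq_sub_of_hasDerivAt (f := fun x : ℝ => φ x)
      (fun x _ => axis_deriv hσ hφ x) (hf1c.continuous.intervalIntegrable _ _)]
    have h1 := perA φ pφ 0
    rw [zero_add] at h1
    rw [h1, sub_self]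
  obtain ⟨q, hq2, qper, η, hη, hq⟩ := exists_q hf1c
    (fun x => axis_deriv hσ (hdd hφ) x) (fun x => axis_deriv hσ (hdd (hdd hφ)) x) ne
    (perA _ p1) int0 hk kper (fun x => hE x)
  refine ⟨q, hq2, qper, ?_⟩
  obtain ⟨r, hrdef⟩ : ∃ r : ℝ → ℝ, r = fun x : ℝ => ‖deriv φ x‖ := ⟨_, rfl⟩
  have hr : ∀ x : ℝ, r x = ‖deriv φ x‖ := fun x => by rw [hrdef]
  have hrc : Continuous r := by rw [hrdef]; exact hf1c.continuous.norm
  have rper : Function.Periodic r (2 * π) := fun x => by rw [hr, hr, perA _ p1]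
  have r0 : ∀ x, 0 < r x := fun x => by rw [hr]; exact norm_pos_iff.2 (ne x)
  have hqc : Continuous q := hq2.continuous
  have hq'c : Continuous (deriv q) := hq2.continuous_deriv (by norm_num)
  -- the strip for the second derivative
  obtain ⟨s1, hs1, hs1σ, hG2⟩ := strip_open (A := G2 φ hL hR r q) (a := 2 * η) hσ
    (G2_cont hφ hhL hhR hrc hqc hq'c) (G2_per pφ pL pR rper qper) (fun x => by
      rw [(G_axis (q := q) hσ hhL hhR rL rR hr hE x).2.2]
      have := hq x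
      linarith)
  -- bounds
  obtain ⟨CL1, hCL10, hCL1⟩ := strip_bdd (F := deriv hL) (σ' := σ / 2) (by linarith)
    (hdd hhL).continuousOn (per_deriv pL)
  obtain ⟨CL2, hCL20, hCL2⟩ := strip_bdd (F := deriv (deriv hL)) (σ' := σ / 2) (by linarith)
    (hdd (hdd hhL)).continuousOn (per_deriv (per_deriv pL))
  obtain ⟨CR1, hCR10, hCR1⟩ := strip_bdd (F := deriv hR) (σ' := σ / 2) (by linarith)
    (hdd hhR).continuousOn (per_deriv pR)
  obtain ⟨CR2, hCR20, hCR2⟩ := strip_bdd (F := deriv (deriv hR)) (σ' := σ / 2) (by linarith)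
    (hdd (hdd hhR)).continuousOn (per_deriv (per_deriv pR))
  obtain ⟨Cφ, hCφ0, hCφ⟩ := strip_bdd (F := deriv φ) (σ' := σ / 2) (by linarith)
    (hdd hφ).continuousOn p1
  obtain ⟨Cq, hCq0, hCq⟩ := per_upper hqc qper
  obtain ⟨Cq', hCq'0, hCq'⟩ := per_upper hq'c (per_deriv_real qper)
  obtain ⟨Cr, hCr0, hCr⟩ := per_upper hrc rper
  obtain ⟨c0, hc0, hc0r⟩ := per_lower hrc rper r0
  obtain ⟨M, hM⟩ : ∃ M : ℝ, M = CR1 * CR1 + CL1 * CL1 + Cq' := ⟨_, rfl⟩
  have hM0 : 0 ≤ M := by rw [hM]; positivity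
  obtain ⟨s, hsdef⟩ : ∃ s : ℝ, s = min (min s1 (σ / 2)) (min 1 (c0 / (2 * (M + 1)))) := ⟨_, rfl⟩
  have hs0 : 0 < s := by
    rw [hsdef]
    exact lt_min (lt_min hs1 (by linarith)) (lt_min one_pos (by positivity))
  have hss1 : s ≤ s1 := by rw [hsdef]; exact (min_le_left _ _).trans (min_le_left _ _)
  have hsσ : s ≤ σ / 2 := by rw [hsdef]; exact (min_le_left _ _).trans (min_le_right _ _)
  have hs11 : s ≤ 1 := by rw [hsdef]; exact (min_le_right _ _).trans (min_le_left _ _)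
  have hsM : s ≤ c0 / (2 * (M + 1)) := by
    rw [hsdef]; exact (min_le_right _ _).trans (min_le_right _ _)
  have hsM' : (M + 1) * s ≤ c0 / 2 := by
    calc (M + 1) * s ≤ (M + 1) * (c0 / (2 * (M + 1))) :=
          mul_le_mul_of_nonneg_left hsM (by linarith)
      _ = c0 / 2 := by field_simp
  have sub2 : ∀ z ∈ Str s, z ∈ Str (σ / 2) := fun z hz =>
    lt_of_lt_of_le (show |z.im| < s from hz) hsσ
  have hs2 : 0 < σ / 2 := by linarith
  have hs2σ : σ / 2 ≤ σ := by linarith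
  have bvL := im_bound hs2 hs2σ hhL rL hCL1
  have bvR := im_bound hs2 hs2σ hhR rR hCR1
  have bgL := im_bound hs2 hs2σ (hdd hhL) (real_deriv hσ hhL rL) hCL2
  have bgR := im_bound hs2 hs2σ (hdd hhR) (real_deriv hσ hhR rR) hCR2
  have gvn : ∀ (h : ℂ → ℂ) (z : ℂ), ‖gv h z‖ = ‖deriv h z‖ := by
    intro h z
    rw [gv_norm]
    unfold gh
    exact RCLike.norm_conj _
  have prodb : ∀ (h : ℂ → ℂ) (C : ℝ) (z : ℂ), 0 ≤ C → |(h z).im| ≤ C * |z.im| → ‖deriv h z‖ ≤ C →
      ∀ u : ℝ, |u| ≤ ‖gv h z‖ → |vh h z * u| ≤ C * C * |z.im| := by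
    intro h C z hC0 h1 h2 u hu
    rw [abs_mul]
    unfold vh
    calc |(h z).im| * |u| ≤ (C * |z.im|) * C :=
          mul_le_mul h1 (hu.trans (by rw [gvn]; exact h2)) (abs_nonneg _) (by positivity)
      _ = C * C * |z.im| := by ring
  have NNre : ∀ z, (NN hL hR r q z).re = -(vh hR z * (gv hR z).re) + vh hL z * (gv hL z).re +
      z.im * q z.re := by
    intro z
    unfold NN PP
    simp
  have NNim : ∀ z, (NN hL hR r q z).im = -(vh hR z * (gv hR z).im) + vh hL z * (gv hL z).im +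
      (r z.re - z.im * z.im * (deriv q z.re / 2)) := by
    intro z
    unfold NN PP
    simp
  have bre : ∀ z ∈ Str s, |(NN hL hR r q z).re| ≤ (CR1 * CR1 + CL1 * CL1 + Cq) * |z.im| := by
    intro z hz
    rw [NNre]
    have h1 := prodb hR CR1 z hCR10 (bvR z (sub2 z hz)) (hCR1 z (sub2 z hz)) _
      (Complex.abs_re_le_norm (gv hR z))
    have h2 := prodb hL CL1 z hCL10 (bvL z (sub2 z hz)) (hCL1 z (sub2 z hz)) _
      (Complex.abs_re_le_norm (gv hL z))
    have h3 : |z.im * q z.re| ≤ Cq * |z.im| := by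
      rw [abs_mul, mul_comm]
      exact mul_le_mul_of_nonneg_right (hCq _) (abs_nonneg _)
    have h4 := abs_add_le (-(vh hR z * (gv hR z).re) + vh hL z * (gv hL z).re) (z.im * q z.re)
    have h5 := abs_add_le (-(vh hR z * (gv hR z).re)) (vh hL z * (gv hL z).re)
    rw [abs_neg] at h5
    nlinarith
  have bim : ∀ z ∈ Str s, |(NN hL hR r q z).im - r z.re| ≤ M * |z.im| := by
    intro z hz
    rw [NNim]
    have h1 := prodb hR CR1 z hCR10 (bvR z (sub2 z hz)) (hCR1 z (sub2 z hz)) _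
      (Complex.abs_im_le_norm (gv hR z))
    have h2 := prodb hL CL1 z hCL10 (bvL z (sub2 z hz)) (hCL1 z (sub2 z hz)) _
      (Complex.abs_im_le_norm (gv hL z))
    have hz1 : |z.im| ≤ 1 := (show |z.im| < s from hz).le.trans hs11
    have h3 : |z.im * z.im * (deriv q z.re / 2)| ≤ Cq' * |z.im| := by
      rw [abs_mul, abs_mul, abs_div]
      have h31 := hCq' z.re
      have h32 : |z.im| * |z.im| ≤ |z.im| := by nlinarith [abs_nonneg z.im]
      have h33 : |deriv q z.re| / |(2:ℝ)| ≤ Cq' := by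
        rw [abs_two]
        linarith [abs_nonneg (deriv q z.re)]
      calc |z.im| * |z.im| * (|deriv q z.re| / |(2:ℝ)|) ≤ |z.im| * Cq' :=
            mul_le_mul h32 h33 (by positivity) (abs_nonneg _)
        _ = Cq' * |z.im| := mul_comm _ _
    have e1 : -(vh hR z * (gv hR z).im) + vh hL z * (gv hL z).im +
        (r z.re - z.im * z.im * (deriv q z.re / 2)) - r z.re =
        (-(vh hR z * (gv hR z).im) + vh hL z * (gv hL z).im) +
        (-(z.im * z.im * (deriv q z.re / 2))) := by ring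
    rw [e1]
    have h4 := abs_add_le (-(vh hR z * (gv hR z).im) + vh hL z * (gv hL z).im)
      (-(z.im * z.im * (deriv q z.re / 2)))
    have h5 := abs_add_le (-(vh hR z * (gv hR z).im)) (vh hL z * (gv hL z).im)
    rw [abs_neg] at h5
    rw [abs_neg (z.im * z.im * (deriv q z.re / 2))] at h4
    rw [hM]
    nlinarith
  have bim2 : ∀ z ∈ Str s, |(NN hL hR r q z).im - r z.re| ≤ c0 / 2 := by
    intro z hz
    refine (bim z hz).trans ?_
    have h1 : |z.im| ≤ s := (show |z.im| < s from hz).le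
    have h2 : M * |z.im| ≤ M * s := mul_le_mul_of_nonneg_left h1 hM0
    nlinarith
  have bsq : ∀ z ∈ Str s, ‖NN hL hR r q z‖ ^ 2 + η * z.im ^ 2 ≤ ‖deriv φ z‖ ^ 2 := by
    intro z hz
    have hz1 : |z.im| < s1 := (show |z.im| < s from hz).trans_le hss1
    obtain ⟨g0, g1, -⟩ := G_axis (q := q) hσ hhL hhR rL rR hr hE z.re
    have h1 := taylor2 (g := fun t => G0 φ hL hR r q (pt z.re t))
      (g1 := fun t => G1 φ hL hR r q (pt z.re t)) (g2 := fun t => G2 φ hL hR r q (pt z.re t))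
      (s := s1) (η := η) (fun y hy => G0_vert hφ hhL hhR (hy.trans_le hs1σ))
      (fun y hy => G1_vert hφ hhL hhR (hy.trans_le hs1σ))
      (fun y hy => (hG2 _ (pt_mem hy)).le) (by rw [pt_zero]; exact g0) (by rw [pt_zero]; exact g1)
      z.im hz1
    simp only [pt_eta] at h1
    unfold G0 at h1
    linarith
  have him : ∀ z ∈ Str s, c0 / 2 ≤ (NN hL hR r q z).im := by
    intro z hz
    have h1 := (abs_le.1 (bim2 z hz)).1
    have h2 := hc0r z.re
    linarith
  obtain ⟨C, hCdef⟩ : ∃ C : ℝ, C = 1 + Cr + c0 + (CR1 * CR1 + CL1 * CL1 + Cq) + CL1 + CR1 + CL2 +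
    CR2 + Cφ := ⟨_, rfl⟩
  have hCC : 0 ≤ CR1 * CR1 + CL1 * CL1 + Cq := by positivity
  refine ⟨s, c0 / 2, C, η, hs0, hsσ.trans hs2σ, ?_⟩
  have hrr : (fun x : ℝ => ‖deriv φ x‖) = r := hrdef.symm
  refine ⟨by linarith, by rw [hCdef]; linarith, hη, ?_, ?_, ?_, ?_, ?_, ?_, ?_, ?_, ?_, ?_⟩
  · intro z hz
    rw [hrr]
    exact bsq z hz
  · intro z hz
    rw [hrr]
    refine (bre z hz).trans (mul_le_mul_of_nonneg_right ?_ (abs_nonneg _))
    rw [hCdef]; linarith
  · intro z hz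
    rw [hrr]
    exact him z hz
  · intro z hz
    rw [hrr]
    have h1 := (abs_le.1 (bim2 z hz)).2
    have h2 := (le_abs_self _).trans (hCr z.re)
    rw [hCdef]; linarith
  · intro z hz
    rw [← gv_norm, gvn]
    refine (hCL1 z (sub2 z hz)).trans ?_
    rw [hCdef]; linarith
  · intro z hz
    rw [← gv_norm, gvn]
    refine (hCR1 z (sub2 z hz)).trans ?_
    rw [hCdef]; linarith
  · intro z hz
    unfold gh
    rw [Complex.conj_im, abs_neg]
    refine (bgL z (sub2 z hz)).trans (mul_le_mul_of_nonneg_right ?_ (abs_nonneg _))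
    rw [hCdef]; linarith
  · intro z hz
    unfold gh
    rw [Complex.conj_im, abs_neg]
    refine (bgR z (sub2 z hz)).trans (mul_le_mul_of_nonneg_right ?_ (abs_nonneg _))
    rw [hCdef]; linarith
  · intro z hz
    have h1 := bsq z hz
    have h2 := him z hz
    have h3 : (NN hL hR r q z).im ≤ ‖NN hL hR r q z‖ :=
      (le_abs_self _).trans (Complex.abs_im_le_norm _)
    have h4 : 0 ≤ η * z.im ^ 2 := by positivity
    have h5 : ‖NN hL hR r q z‖ ≤ ‖deriv φ z‖ := by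
      refine le_of_sq_le_sq ?_ (norm_nonneg _)
      linarith
    linarith
  · intro z hz
    refine (hCφ z (sub2 z hz)).trans ?_
    rw [hCdef]; linarith

end Pool.Agent.Y210.MS
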